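import Mathlib

/-!
# Monotone conditions and edges of the cube in some of its directions
-/

set_option autoImplicit false

namespace Pool.Agent.Q330.MHJ

open Finset

variable {X : Type*} [Fintype X] [DecidableEq X]

/-- the pairs of a set `A` and a point of `D` outside of `A` -/
def outs (D : Finset X) : Finset (Finset X × X) :=
  univ.filter fun q => q.2 ∈ D ∧ q.2 ∉ q.1

/-- the pairs of a set `A` and a point of `D` in `A` -/
def ins (D : Finset X) : Finset (Finset X × X) :=
  univ.filter fun q => q.2 ∈ D ∧ q.2 ∈ q.1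

/-- the edges at which the condition `U` begins to hold -/
noncomputable def bd (D : Finset X) (U : Finset X → Prop) : ℕ := by
  classical
  exact ((outs D).filter fun q => ¬ U q.1 ∧ U (insert q.2 q.1)).card

/-- a dependent pair as a pair -/
def toPair (p : (_ : Finset X) × X) : Finset X × X := (p.1, p.2)

omit [Fintype X] [DecidableEq X] in
theorem toPair_inj : Function.Injective (toPair (X := X)) := by
  rintro ⟨a, b⟩ ⟨c, d⟩ h
  simp only [toPair, Prod.mk.injEq] at h
  obtain ⟨rfl, rfl⟩ := h
  rfl

open Classical in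
theorem fiber_in (D : Finset X) (U : Finset X → Prop) :
    ((ins D).filter fun q => U q.1).card = ∑ A ∈ univ.filter U, (A ∩ D).card := by
  have h : ((ins D).filter fun q => U q.1) =
      ((univ.filter U).sigma (fun A => A ∩ D)).map ⟨toPair, toPair_inj⟩ := by
    ext ⟨A, x⟩
    simp only [ins, mem_filter, mem_univ, true_and, mem_map, mem_sigma, mem_inter,
      Function.Embedding.coeFn_mk, toPair, Prod.mk.injEq, Sigma.exists]
    constructor
    · rintro ⟨⟨h1, h2⟩, h3⟩
      exact ⟨A, x, ⟨h3, h2, h1⟩, rfl, rfl⟩
    · rintro ⟨B, y, ⟨h3, h2, h1⟩, rfl, rfl⟩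
      exact ⟨⟨h1, h2⟩, h3⟩
  rw [h, card_map, card_sigma]

open Classical in
theorem fiber_out (D : Finset X) (U : Finset X → Prop) :
    ((outs D).filter fun q => U q.1).card = ∑ A ∈ univ.filter U, (D \ A).card := by
  have h : ((outs D).filter fun q => U q.1) =
      ((univ.filter U).sigma (fun A => D \ A)).map ⟨toPair, toPair_inj⟩ := by
    ext ⟨A, x⟩
    simp only [outs, mem_filter, mem_univ, true_and, mem_map, mem_sigma, mem_sdiff,
      Function.Embedding.coeFn_mk, toPair, Prod.mk.injEq, Sigma.exists]
    constructor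
    · rintro ⟨⟨h1, h2⟩, h3⟩
      exact ⟨A, x, ⟨h3, h1, h2⟩, rfl, rfl⟩
    · rintro ⟨B, y, ⟨h3, h1, h2⟩, rfl, rfl⟩
      exact ⟨⟨h1, h2⟩, h3⟩
  rw [h, card_map, card_sigma]

open Classical in
/-- removing the point -/
theorem shift (D : Finset X) (U : Finset X → Prop) :
    ((ins D).filter fun q => U q.1).card = ((outs D).filter fun q => U (insert q.2 q.1)).card := by
  refine card_nbij' (fun q => (q.1.erase q.2, q.2)) (fun q => (insert q.2 q.1, q.2)) ?_ ?_ ?_ ?_
  · rintro ⟨A, x⟩ h
    simp only [ins, coe_filter, mem_filter, mem_univ, true_and, Set.mem_ofPred_eq] at h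
    simp only [outs, coe_filter, mem_filter, mem_univ, true_and, Set.mem_ofPred_eq]
    exact ⟨⟨h.1.1, notMem_erase _ _⟩, by rw [insert_erase h.1.2]; exact h.2⟩
  · rintro ⟨A, x⟩ h
    simp only [outs, coe_filter, mem_filter, mem_univ, true_and, Set.mem_ofPred_eq] at h
    simp only [ins, coe_filter, mem_filter, mem_univ, true_and, Set.mem_ofPred_eq]
    exact ⟨⟨h.1.1, mem_insert_self _ _⟩, h.2⟩
  · rintro ⟨A, x⟩ h
    simp only [ins, coe_filter, mem_filter, mem_univ, true_and, Set.mem_ofPred_eq] at h
    simp only [insert_erase h.1.2]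
  · rintro ⟨A, x⟩ h
    simp only [outs, coe_filter, mem_filter, mem_univ, true_and, Set.mem_ofPred_eq] at h
    simp only [erase_insert h.1.2]

open Classical in
/-- the number of the edges at which a monotone condition begins to hold -/
theorem bd_eq (D : Finset X) (U : Finset X → Prop) (hU : ∀ A, ∀ x ∈ D, U A → U (insert x A)) :
    (bd D U : ℤ) = ∑ A ∈ univ.filter U, (2 * (A ∩ D).card - D.card : ℤ) := by
  have h1 : ((outs D).filter fun q => U (insert q.2 q.1)).card =
      ((outs D).filter fun q => U q.1).card + bd D U := by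
    unfold bd
    rw [← card_union_of_disjoint]
    · congr 1
      ext ⟨A, x⟩
      simp only [outs, mem_filter, mem_univ, true_and, mem_union]
      constructor
      · rintro ⟨h1, h2⟩
        by_cases h : U A
        · exact Or.inl ⟨h1, h⟩
        · exact Or.inr ⟨h1, h, h2⟩
      · rintro (⟨h1, h2⟩ | ⟨h1, h2, h3⟩)
        · exact ⟨h1, hU A x h1.1 h2⟩
        · exact ⟨h1, h3⟩
    · rw [disjoint_left]
      rintro ⟨A, x⟩ h1 h2
      exact (mem_filter.1 h2).2.1 (mem_filter.1 h1).2
  have h2 := shift D U
  rw [fiber_in, h1, fiber_out] at h2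
  have h3 : (bd D U : ℤ) = ∑ A ∈ univ.filter U, ((A ∩ D).card : ℤ) -
      ∑ A ∈ univ.filter U, ((D \ A).card : ℤ) := by
    have : (∑ A ∈ univ.filter U, (A ∩ D).card : ℕ) =
      (∑ A ∈ univ.filter U, (D \ A).card : ℕ) + bd D U := h2
    have h4 : ((∑ A ∈ univ.filter U, (A ∩ D).card : ℕ) : ℤ) =
      ((∑ A ∈ univ.filter U, (D \ A).card : ℕ) : ℤ) + bd D U := by exact_mod_cast this
    push_cast at h4
    omega
  rw [h3, ← sum_sub_distrib]
  refine sum_congr rfl fun A _ => ?_
  have := card_sdiff_add_card_inter D A
  rw [inter_comm] at this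
  push_cast [← this]
  ring

open Classical in
/-- the majority condition has the most edges -/
theorem bd_le (D : Finset X) (U : Finset X → Prop) (hU : ∀ A, ∀ x ∈ D, U A → U (insert x A)) :
    bd D U ≤ bd D (fun A => D.card < 2 * (A ∩ D).card) := by
  have h1 := bd_eq D U hU
  have h2 := bd_eq D (fun A => D.card < 2 * (A ∩ D).card) (by
    intro A x _ h
    have := card_le_card (inter_subset_inter_right (subset_insert x A) : A ∩ D ⊆ insert x A ∩ D)
    omega)
  have h3 : ∑ A ∈ univ.filter U, (2 * (A ∩ D).card - D.card : ℤ) ≤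
      ∑ A ∈ univ.filter (fun A : Finset X => D.card < 2 * (A ∩ D).card),
        (2 * (A ∩ D).card - D.card : ℤ) := by
    rw [← sum_filter_add_sum_filter_not (univ.filter U) (fun A => D.card < 2 * (A ∩ D).card)]
    have h4 : ∑ A ∈ (univ.filter U).filter (fun A => ¬ D.card < 2 * (A ∩ D).card),
        (2 * (A ∩ D).card - D.card : ℤ) ≤ 0 := by
      refine sum_nonpos fun A hA => ?_
      have := (mem_filter.1 hA).2
      omega
    have h5 : ∑ A ∈ (univ.filter U).filter (fun A => D.card < 2 * (A ∩ D).card),
        (2 * (A ∩ D).card - D.card : ℤ) ≤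
        ∑ A ∈ univ.filter (fun A : Finset X => D.card < 2 * (A ∩ D).card),
          (2 * (A ∩ D).card - D.card : ℤ) := by
      refine sum_le_sum_of_subset_of_nonneg ?_ ?_
      · intro A hA
        rw [mem_filter] at hA ⊢
        exact ⟨mem_univ _, hA.2⟩
      · intro A hA _
        have := (mem_filter.1 hA).2
        omega
    linarith
  have h6 : (bd D U : ℤ) ≤ (bd D (fun A => D.card < 2 * (A ∩ D).card) : ℕ) := by
    rw [h1]
    refine h3.trans (le_of_eq ?_)
    rw [h2]
    exact sum_congr (by congr) fun _ _ => rfl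
  exact_mod_cast h6

/-- the number of the sets with `j` elements in `D` -/
theorem card_level (D : Finset X) (j : ℕ) :
    (univ.filter fun A : Finset X => (A ∩ D).card = j).card =
      D.card.choose j * 2 ^ (Fintype.card X - D.card) := by
  have h1 : ((D.powersetCard j) ×ˢ ((univ \ D).powerset)).card =
      D.card.choose j * 2 ^ (Fintype.card X - D.card) := by
    rw [card_product, card_powersetCard, card_powerset, card_sdiff_of_subset (subset_univ _),
      card_univ]
  rw [← h1]
  refine card_nbij' (fun A => (A ∩ D, A \ D)) (fun q => q.1 ∪ q.2) ?_ ?_ ?_ ?_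
  · intro A hA
    simp only [coe_filter, mem_univ, true_and, Set.mem_ofPred_eq] at hA
    simp only [coe_product, Set.mem_prod, mem_coe, mem_powersetCard, mem_powerset]
    exact ⟨⟨inter_subset_right, hA⟩, sdiff_subset_sdiff (subset_univ _) Subset.rfl⟩
  · rintro ⟨B, C⟩ h
    simp only [coe_product, Set.mem_prod, mem_coe, mem_powersetCard, mem_powerset] at h
    simp only [coe_filter, mem_univ, true_and, Set.mem_ofPred_eq]
    have : (B ∪ C) ∩ D = B := by
      ext x
      simp only [mem_inter, mem_union]
      constructor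
      · rintro ⟨h1 | h1, h2⟩
        · exact h1
        · exact absurd h2 (mem_sdiff.1 (h.2 h1)).2
      · exact fun h1 => ⟨Or.inl h1, h.1.1 h1⟩
    rw [this]
    exact h.1.2
  · intro A _
    simp only
    ext x
    simp only [mem_union, mem_inter, mem_sdiff]
    tauto
  · rintro ⟨B, C⟩ h
    simp only [coe_product, Set.mem_prod, mem_coe, mem_powersetCard, mem_powerset] at h
    simp only [Prod.mk.injEq]
    constructor
    · ext x
      simp only [mem_inter, mem_union]
      constructor
      · rintro ⟨h1 | h1, h2⟩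
        · exact h1
        · exact absurd h2 (mem_sdiff.1 (h.2 h1)).2
      · exact fun h1 => ⟨Or.inl h1, h.1.1 h1⟩
    · ext x
      simp only [mem_sdiff, mem_union]
      constructor
      · rintro ⟨h1 | h1, h2⟩
        · exact absurd (h.1.1 h1) h2
        · exact h1
      · exact fun h1 => ⟨Or.inr h1, (mem_sdiff.1 (h.2 h1)).2⟩

open Classical in
/-- the number of the edges of the majority condition -/
theorem bd_maj (D : Finset X) :
    bd D (fun A => D.card < 2 * (A ∩ D).card) =
      (D.card - D.card / 2) * (D.card.choose (D.card / 2) * 2 ^ (Fintype.card X - D.card)) := by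
  have h1 : ((outs D).filter fun q => ¬ (D.card < 2 * (q.1 ∩ D).card) ∧
      D.card < 2 * ((insert q.2 q.1) ∩ D).card) =
      ((outs D).filter fun q => (q.1 ∩ D).card = D.card / 2) := by
    ext ⟨A, x⟩
    simp only [outs, mem_filter, mem_univ, true_and]
    refine and_congr_right fun hx => ?_
    have : (insert x A ∩ D).card = (A ∩ D).card + 1 := by
      rw [insert_inter_of_mem hx.1, card_insert_of_notMem]
      exact fun h => hx.2 (mem_inter.1 h).1
    rw [this]
    omega
  have h0 : bd D (fun A => D.card < 2 * (A ∩ D).card) =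
      ((outs D).filter fun q => (q.1 ∩ D).card = D.card / 2).card := by
    rw [← h1]
    unfold bd
    congr
  have h00 : ((outs D).filter fun q => (q.1 ∩ D).card = D.card / 2).card =
      ∑ A ∈ univ.filter (fun A : Finset X => (A ∩ D).card = D.card / 2), (D \ A).card := by
    have := fiber_out D (fun A => (A ∩ D).card = D.card / 2)
    convert this
  rw [h0, h00, ← card_level, mul_comm, ← smul_eq_mul, ← sum_const]
  refine sum_congr rfl fun A hA => ?_
  have := card_sdiff_add_card_inter D A
  rw [inter_comm] at this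
  have h2 := (mem_filter.1 hA).2
  omega

end Pool.Agent.Q330.MHJ
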