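import Pool.Agent.Q330.MHJ.Edges

/-!
# Families which are combinations of monotone conditions
-/

set_option autoImplicit false

namespace Pool.Agent.Q330.MHJ

open Finset

/-- a bound for the middle binomial coefficients -/
theorem central_sq (r : ℕ) : (Nat.centralBinom r) ^ 2 * (2 * r + 1) ≤ 16 ^ r := by
  induction r with
  | zero => simp
  | succ r ih =>
    have h := Nat.succ_mul_centralBinom_succ r
    have h1 : (r + 1) ^ 2 * ((Nat.centralBinom (r + 1)) ^ 2 * (2 * (r + 1) + 1)) ≤
        (r + 1) ^ 2 * 16 ^ (r + 1) := by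
      calc (r + 1) ^ 2 * ((Nat.centralBinom (r + 1)) ^ 2 * (2 * (r + 1) + 1))
          = ((r + 1) * Nat.centralBinom (r + 1)) ^ 2 * (2 * r + 3) := by ring
        _ = (2 * (2 * r + 1) * Nat.centralBinom r) ^ 2 * (2 * r + 3) := by rw [h]
        _ = ((Nat.centralBinom r) ^ 2 * (2 * r + 1)) * (4 * ((2 * r + 1) * (2 * r + 3))) := by
          ring
        _ ≤ 16 ^ r * (4 * ((2 * r + 1) * (2 * r + 3))) := Nat.mul_le_mul_right _ ih
        _ ≤ 16 ^ r * (16 * (r + 1) ^ 2) := by
          refine Nat.mul_le_mul_left _ ?_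
          nlinarith
        _ = (r + 1) ^ 2 * 16 ^ (r + 1) := by ring
    exact Nat.le_of_mul_le_mul_left h1 (by positivity)

theorem mid_sq (N : ℕ) (hN : 1 ≤ N) : ((N - 1).choose (N / 2)) ^ 2 * N ≤ 4 ^ (N - 1) := by
  rcases Nat.even_or_odd' N with ⟨r, rfl | rfl⟩
  · obtain ⟨s, rfl⟩ : ∃ s, r = s + 1 := ⟨r - 1, by omega⟩
    have h1 : 2 * (s + 1) - 1 = 2 * s + 1 := by omega
    have h2 : 2 * (s + 1) / 2 = s + 1 := by omega
    rw [h1, h2]
    have h3 : Nat.centralBinom (s + 1) = 2 * (2 * s + 1).choose (s + 1) := by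
      rw [Nat.centralBinom_eq_two_mul_choose]
      have : 2 * (s + 1) = (2 * s + 1) + 1 := by ring
      rw [this, Nat.choose_succ_succ, Nat.choose_symm_half]
      ring
    have h4 := central_sq (s + 1)
    rw [h3] at h4
    have h5 : 4 * (((2 * s + 1).choose (s + 1)) ^ 2 * (2 * (s + 1))) ≤ 4 * 4 ^ (2 * s + 1) := by
      calc 4 * (((2 * s + 1).choose (s + 1)) ^ 2 * (2 * (s + 1)))
          ≤ (2 * (2 * s + 1).choose (s + 1)) ^ 2 * (2 * (s + 1) + 1) := by nlinarith
        _ ≤ 16 ^ (s + 1) := h4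
        _ = 4 * 4 ^ (2 * s + 1) := by
          rw [show (16 : ℕ) = 4 ^ 2 by norm_num, ← pow_mul]
          ring
    omega
  · have h1 : 2 * r + 1 - 1 = 2 * r := by omega
    have h2 : (2 * r + 1) / 2 = r := by omega
    rw [h1, h2]
    have h4 := central_sq r
    rw [Nat.centralBinom_eq_two_mul_choose] at h4
    calc _ ≤ 16 ^ r := h4
      _ = 4 ^ (2 * r) := by rw [show (16 : ℕ) = 4 ^ 2 by norm_num, ← pow_mul]

variable {X : Type*} [Fintype X] [DecidableEq X]

/-- change the membership of `x` -/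
def tog (A : Finset X) (x : X) : Finset X := if x ∈ A then A.erase x else insert x A

omit [Fintype X] in
theorem tog_tog (A : Finset X) (x : X) : tog (tog A x) x = A := by
  unfold tog
  by_cases h : x ∈ A
  · simp [h, insert_erase h]
  · simp [h, erase_insert h]

omit [Fintype X] in
theorem tog_sdiff (A D : Finset X) (x : X) (hx : x ∈ D) : tog A x \ D = A \ D := by
  unfold tog
  split_ifs with h
  · ext y
    simp only [mem_sdiff, mem_erase]
    constructor
    · rintro ⟨⟨_, h1⟩, h2⟩
      exact ⟨h1, h2⟩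
    · rintro ⟨h1, h2⟩
      exact ⟨⟨fun h3 => h2 (h3 ▸ hx), h1⟩, h2⟩
  · ext y
    simp only [mem_sdiff, mem_insert]
    constructor
    · rintro ⟨h1 | h1, h2⟩
      · exact absurd (h1 ▸ hx) h2
      · exact ⟨h1, h2⟩
    · rintro ⟨h1, h2⟩
      exact ⟨Or.inr h1, h2⟩

omit [Fintype X] in
theorem tog_not_mem (S : Finset (Finset X)) (D : Finset X)
    (hS : ∀ A ∈ S, ∀ x ∈ D, x ∉ A → insert x A ∉ S) (A : Finset X) (hA : A ∈ S) (x : X)
    (hx : x ∈ D) : tog A x ∉ S := by
  unfold tog
  split_ifs with h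
  · intro h1
    exact hS _ h1 x hx (notMem_erase _ _) (by rw [insert_erase h]; exact hA)
  · exact hS A hA x hx h

open Classical in
/-- the main inequality -/
theorem edges {m : ℕ} (D : Finset X) (U : Fin m → Finset X → Prop)
    (hU : ∀ i A, ∀ x ∈ D, U i A → U i (insert x A)) (R : Finset X → (Fin m → Prop) → Prop)
    (F S : Finset (Finset X)) (hF : ∀ A, A ∈ F ↔ R (A \ D) (fun i => U i A)) (hSF : S ⊆ F)
    (hS : ∀ A ∈ S, ∀ x ∈ D, x ∉ A → insert x A ∉ S) :
    S.card * D.card ≤ (F \ S).card * D.card +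
      m * ((D.card - D.card / 2) * (D.card.choose (D.card / 2) *
        2 ^ (Fintype.card X - D.card))) := by
  set P := S ×ˢ D with hP
  have h0 : (P.filter fun q => tog q.1 q.2 ∈ F).card + (P.filter fun q => ¬ tog q.1 q.2 ∈ F).card
      = S.card * D.card := by
    rw [card_filter_add_card_filter_not, hP, card_product]
  have h1 : (P.filter fun q => tog q.1 q.2 ∈ F).card ≤ (F \ S).card * D.card := by
    rw [← card_product]
    refine card_le_card_of_injOn (fun q => (tog q.1 q.2, q.2)) ?_ ?_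
    · rintro ⟨A, x⟩ hq
      simp only [hP, coe_filter, mem_product, Set.mem_ofPred_eq] at hq
      simp only [coe_product, Set.mem_prod, mem_coe, mem_sdiff]
      exact ⟨⟨hq.2, tog_not_mem S D hS A hq.1.1 x hq.1.2⟩, hq.1.2⟩
    · rintro ⟨A, x⟩ _ ⟨B, y⟩ _ hAB
      simp only [Prod.mk.injEq] at hAB
      obtain ⟨h1, rfl⟩ := hAB
      have : A = B := by rw [← tog_tog A x, h1, tog_tog]
      rw [this]
  have h2 : (P.filter fun q => ¬ tog q.1 q.2 ∈ F).card ≤
      ((univ : Finset (Fin m)).biUnion fun i =>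
        (outs D).filter fun q => ¬ U i q.1 ∧ U i (insert q.2 q.1)).card := by
    refine card_le_card_of_injOn (fun q => (q.1.erase q.2, q.2)) ?_ ?_
    · rintro ⟨A, x⟩ hq
      simp only [hP, coe_filter, mem_product, Set.mem_ofPred_eq] at hq
      obtain ⟨⟨hA, hx⟩, hq2⟩ := hq
      simp only [mem_coe, mem_biUnion, mem_univ, true_and, mem_filter]
      have hAF := (hF A).1 (hSF hA)
      have hnF : ¬ R (tog A x \ D) (fun i => U i (tog A x)) := fun h => hq2 ((hF _).2 h)
      rw [tog_sdiff A D x hx] at hnF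
      have : ∃ i, ¬ (U i A ↔ U i (tog A x)) := by
        by_contra hcon
        push Not at hcon
        apply hnF
        have : (fun i => U i (tog A x)) = fun i => U i A := by
          funext i
          exact propext (hcon i).symm
        rw [this]
        exact hAF
      obtain ⟨i, hi⟩ := this
      refine ⟨i, ?_, ?_, ?_⟩
      · simp only [outs, mem_filter, mem_univ, true_and]
        exact ⟨hx, notMem_erase _ _⟩
      · intro h
        apply hi
        have h3 := hU i _ x hx h
        unfold tog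
        split_ifs with h4
        · rw [insert_erase h4] at h3
          exact ⟨fun _ => h, fun _ => h3⟩
        · rw [erase_eq_of_notMem h4] at h h3
          exact ⟨fun _ => h3, fun _ => h⟩
      · by_contra h
        apply hi
        have h5 : ¬ U i (A.erase x) := fun h3 => h (hU i _ x hx h3)
        unfold tog
        split_ifs with h4
        · rw [insert_erase h4] at h
          exact ⟨fun h6 => absurd h6 h, fun h6 => absurd h6 h5⟩
        · rw [erase_eq_of_notMem h4] at h h5
          exact ⟨fun h6 => absurd h6 h5, fun h6 => absurd h6 h⟩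
    · rintro ⟨A, x⟩ hA ⟨B, y⟩ hB hAB
      simp only [hP, coe_filter, mem_product, Set.mem_ofPred_eq] at hA hB
      simp only [Prod.mk.injEq] at hAB
      obtain ⟨h1, rfl⟩ := hAB
      by_cases hxA : x ∈ A
      · by_cases hxB : x ∈ B
        · rw [← insert_erase hxA, h1, insert_erase hxB]
        · rw [erase_eq_of_notMem hxB] at h1
          exact absurd (by rw [← h1, insert_erase hxA]; exact hA.1.1)
            (hS B hB.1.1 x hB.1.2 hxB)
      · by_cases hxB : x ∈ B
        · rw [erase_eq_of_notMem hxA] at h1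
          exact absurd (by rw [h1, insert_erase hxB]; exact hB.1.1)
            (hS A hA.1.1 x hA.1.2 hxA)
        · rw [erase_eq_of_notMem hxA, erase_eq_of_notMem hxB] at h1
          rw [h1]
  have h3 : ((univ : Finset (Fin m)).biUnion fun i =>
        (outs D).filter fun q => ¬ U i q.1 ∧ U i (insert q.2 q.1)).card ≤
      m * ((D.card - D.card / 2) * (D.card.choose (D.card / 2) *
        2 ^ (Fintype.card X - D.card))) := by
    refine card_biUnion_le.trans ?_
    have : ∀ i ∈ (univ : Finset (Fin m)),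
        ((outs D).filter fun q => ¬ U i q.1 ∧ U i (insert q.2 q.1)).card ≤
        (D.card - D.card / 2) * (D.card.choose (D.card / 2) *
          2 ^ (Fintype.card X - D.card)) := by
      intro i _
      have h := bd_le D (U i) (hU i)
      rw [bd_maj] at h
      exact h
    refine (sum_le_card_nsmul _ _ _ this).trans ?_
    simp
  omega

/-- the main theorem in integers -/
theorem main_nat {m : ℕ} (D : Finset X) (hD : 1 ≤ D.card) (U : Fin m → Finset X → Prop)
    (hU : ∀ i A, ∀ x ∈ D, U i A → U i (insert x A)) (R : Finset X → (Fin m → Prop) → Prop)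
    (F S : Finset (Finset X)) (hF : ∀ A, A ∈ F ↔ R (A \ D) (fun i => U i A)) (hSF : S ⊆ F)
    (hS : F.card + m * ((D.card - 1).choose (D.card / 2) * 2 ^ (Fintype.card X - D.card)) <
      2 * S.card) :
    ∃ A ∈ S, ∃ x ∈ D, x ∉ A ∧ insert x A ∈ S := by
  by_contra hcon
  push Not at hcon
  have h := edges D U hU R F S hF hSF hcon
  have h1 : (D.card - 1).choose (D.card / 2) * D.card =
      D.card.choose (D.card / 2) * (D.card - D.card / 2) := by
    have := Nat.choose_mul_succ_eq (D.card - 1) (D.card / 2)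
    rw [Nat.sub_add_cancel hD] at this
    exact this
  have h2 : (D.card - D.card / 2) * (D.card.choose (D.card / 2) *
      2 ^ (Fintype.card X - D.card)) =
      ((D.card - 1).choose (D.card / 2) * 2 ^ (Fintype.card X - D.card)) * D.card := by
    calc (D.card - D.card / 2) * (D.card.choose (D.card / 2) *
      2 ^ (Fintype.card X - D.card)) = (D.card.choose (D.card / 2) * (D.card - D.card / 2)) *
      2 ^ (Fintype.card X - D.card) := by ring
      _ = ((D.card - 1).choose (D.card / 2) * D.card) * 2 ^ (Fintype.card X - D.card) := by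
        rw [h1]
      _ = _ := by ring
  rw [h2, ← mul_assoc, ← add_mul] at h
  have h3 := Nat.le_of_mul_le_mul_right h (by omega)
  have h4 : (F \ S).card + S.card = F.card := card_sdiff_add_card_eq_card hSF
  omega

/-- the main theorem -/
theorem main {m : ℕ} (D : Finset X) (hD : 1 ≤ D.card) (U : Fin m → Finset X → Prop)
    (hU : ∀ i A, ∀ x ∈ D, U i A → U i (insert x A)) (R : Finset X → (Fin m → Prop) → Prop)
    (F S : Finset (Finset X)) (hF : ∀ A, A ∈ F ↔ R (A \ D) (fun i => U i A)) (hSF : S ⊆ F)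
    (hS : (F.card : ℝ) / 2 + m / (4 * Real.sqrt D.card) * 2 ^ (Fintype.card X) < S.card) :
    ∃ A ∈ S, ∃ x ∈ D, x ∉ A ∧ insert x A ∈ S := by
  refine main_nat D hD U hU R F S hF hSF ?_
  set N := D.card with hN
  set M := Fintype.card X with hM
  have hNM : N ≤ M := card_le_univ D
  have hNpos : (0 : ℝ) < N := by exact_mod_cast hD
  have hs : 0 < Real.sqrt N := Real.sqrt_pos.2 hNpos
  have h1 := mid_sq N hD
  have h2 : (((N - 1).choose (N / 2) : ℕ) : ℝ) * Real.sqrt N ≤ 2 ^ (N - 1) := by
    refine le_of_sq_le_sq ?_ (by positivity)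
    rw [mul_pow, Real.sq_sqrt hNpos.le]
    calc ((((N - 1).choose (N / 2) : ℕ) : ℝ)) ^ 2 * (N : ℝ) ≤ 4 ^ (N - 1) := by exact_mod_cast h1
      _ = (2 ^ (N - 1)) ^ 2 := by
        rw [show (4 : ℝ) = 2 ^ 2 by norm_num, ← pow_mul, ← pow_mul, mul_comm]
  have h3 : (2 : ℝ) ^ M = 2 * (2 ^ (N - 1) * 2 ^ (M - N)) := by
    rw [← pow_add, ← pow_succ']
    congr 1
    omega
  have h4 : (m : ℝ) * ((((N - 1).choose (N / 2) : ℕ) : ℝ) * 2 ^ (M - N)) ≤
      2 * (m / (4 * Real.sqrt N) * 2 ^ M) := by
    rw [h3]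
    have h5 : 2 * ((m : ℝ) / (4 * Real.sqrt N) * (2 * (2 ^ (N - 1) * 2 ^ (M - N)))) =
        m * ((2 ^ (N - 1) / Real.sqrt N) * 2 ^ (M - N)) := by
      field_simp
      ring
    rw [h5]
    have h6 : (((N - 1).choose (N / 2) : ℕ) : ℝ) ≤ 2 ^ (N - 1) / Real.sqrt N := by
      rw [le_div_iff₀ hs]
      exact h2
    gcongr
  have h7 : ((F.card + m * ((N - 1).choose (N / 2) * 2 ^ (M - N)) : ℕ) : ℝ) <
      ((2 * S.card : ℕ) : ℝ) := by
    push_cast
    linarith
  exact_mod_cast h7

end Pool.Agent.Q330.MHJ
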